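import Pool.Agent.LPK.Stmts

/-!
# Row QDD of squad LPK: the second directional derivative of `q G`
-/

set_option autoImplicit false

noncomputable section

open MeasureTheory Filter Topology
open scoped RealInnerProductSpace

namespace Pool.Agent.LPK.H4

theorem e3_cons (t : ℤ × ℕ × ℕ × ℕ) (p : P3) (A B H : ℝ) :
    e3 (t :: p) A B H = (t.1 : ℝ) * A ^ t.2.1 * B ^ t.2.2.1 * H ^ t.2.2.2 + e3 p A B H := by
  simp [e3]

/-- the chain rule for a polynomial in two functions -/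
theorem chain (q : P3) (B : ℝ) {a h : ℝ → ℝ} {a' h' t : ℝ} (ha : HasDerivAt a a' t)
    (hh : HasDerivAt h h' t) :
    HasDerivAt (fun s => e3 q (a s) B (h s))
      (a' * e3 (dA q) (a t) B (h t) + h' * e3 (dH q) (a t) B (h t)) t := by
  induction q with
  | nil =>
    have h1 : HasDerivAt (fun _ : ℝ => (0 : ℝ)) 0 t := hasDerivAt_const t 0
    simpa [e3, dA, dH] using h1
  | cons c p ih =>
    have h1 := (((ha.fun_pow c.2.1).const_mul (c.1 : ℝ)).mul_const (B ^ c.2.2.1)).fun_mul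
      (hh.fun_pow c.2.2.2)
    have h2 := h1.fun_add ih
    have e1 : (fun s => e3 (c :: p) (a s) B (h s)) = fun s =>
        (c.1 : ℝ) * a s ^ c.2.1 * B ^ c.2.2.1 * h s ^ c.2.2.2 + e3 p (a s) B (h s) := by
      funext s
      exact e3_cons c p _ _ _
    rw [e1]
    have e2 : dA (c :: p) = (c.1 * c.2.1, c.2.1 - 1, c.2.2.1, c.2.2.2) :: dA p := rfl
    have e3' : dH (c :: p) = (c.1 * c.2.2.2, c.2.1, c.2.2.1, c.2.2.2 - 1) :: dH p := rfl
    rw [e2, e3', e3_cons, e3_cons]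
    refine h2.congr_deriv ?_
    push_cast
    ring

/-- mixed derivatives -/
theorem dd_comm (q : P3) (A B H : ℝ) : e3 (dH (dA q)) A B H = e3 (dA (dH q)) A B H := by
  induction q with
  | nil => rfl
  | cons c p ih =>
    have e1 : dH (dA (c :: p)) = (c.1 * c.2.1 * c.2.2.2, c.2.1 - 1, c.2.2.1, c.2.2.2 - 1) ::
      dH (dA p) := rfl
    have e2 : dA (dH (c :: p)) = (c.1 * c.2.2.2 * c.2.1, c.2.1 - 1, c.2.2.1, c.2.2.2 - 1) ::
      dA (dH p) := rfl
    rw [e1, e2, e3_cons, e3_cons, ih]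
    push_cast
    ring

/-- QDD -/
theorem qdd (_eva : EvaStmt) : QddStmt := by
  intro n q y v w
  obtain ⟨s, hs⟩ : ∃ s : ℝ, s = ⟪w, v⟫ := ⟨_, rfl⟩
  obtain ⟨u, hu⟩ : ∃ u : ℝ, u = ⟪y, v⟫ := ⟨_, rfl⟩
  obtain ⟨V, hV⟩ : ∃ V : ℝ, V = ‖v‖ ^ 2 := ⟨_, rfl⟩
  obtain ⟨A, hA⟩ : ∃ A : ℝ, A = ‖w‖ ^ 2 := ⟨_, rfl⟩
  obtain ⟨B, hB⟩ : ∃ B : ℝ, B = ‖y‖ ^ 2 := ⟨_, rfl⟩
  obtain ⟨H, hH⟩ : ∃ H : ℝ, H = ⟪w, y⟫ := ⟨_, rfl⟩
  have h1 : ∀ t : ℝ, ‖w + t • v‖ ^ 2 = A + 2 * t * s + t ^ 2 * V := by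
    intro t
    rw [norm_add_sq_real, norm_smul, real_inner_smul_right, mul_pow, Real.norm_eq_abs, sq_abs,
      hA, hV, hs]
    ring
  have h2 : ∀ t : ℝ, ⟪w + t • v, y⟫ = H + t * u := by
    intro t
    rw [inner_add_left, real_inner_smul_left, hH, hu, real_inner_comm y v]
  have h3 : ∀ t : ℝ, G (w + t • v) = Real.exp (-(A + 2 * t * s + t ^ 2 * V) / 2) := by
    intro t
    rw [G, h1]
  have hG : G w = Real.exp (-A / 2) := by rw [G, hA]
  have h4 : ∀ t : ℝ, HasDerivAt (fun t : ℝ => A + 2 * t * s + t ^ 2 * V) (2 * (s + t * V)) t := by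
    intro t
    have h := (((hasDerivAt_id t).const_mul 2).mul_const s).const_add A |>.add
      (((hasDerivAt_id t).pow 2).mul_const V)
    refine h.congr_deriv ?_
    simp only [id]
    push_cast
    ring
  have h5 : ∀ t : ℝ, HasDerivAt (fun t : ℝ => H + t * u) u t := by
    intro t
    have h := ((hasDerivAt_id t).mul_const u).const_add H
    refine h.congr_deriv ?_
    ring
  have h6 : ∀ t : ℝ, HasDerivAt (fun t : ℝ => s + t * V) V t := by
    intro t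
    have h := ((hasDerivAt_id t).mul_const V).const_add s
    refine h.congr_deriv ?_
    ring
  have h7 : ∀ t : ℝ, HasDerivAt (fun t : ℝ => Real.exp (-(A + 2 * t * s + t ^ 2 * V) / 2))
      (-(s + t * V) * Real.exp (-(A + 2 * t * s + t ^ 2 * V) / 2)) t := by
    intro t
    have h := (((h4 t).fun_neg).div_const 2).exp
    refine h.congr_deriv ?_
    ring
  have hf : (fun t : ℝ => e3 q (‖w + t • v‖ ^ 2) (‖y‖ ^ 2) ⟪w + t • v, y⟫ * G (w + t • v)) =
      fun t : ℝ => e3 q (A + 2 * t * s + t ^ 2 * V) B (H + t * u) *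
        Real.exp (-(A + 2 * t * s + t ^ 2 * V) / 2) := by
    funext t
    rw [h1, h2, h3, ← hB]
  rw [hf, ← hs, ← hu, ← hV, ← hA, ← hB, ← hH, hG]
  refine ⟨fun t => (2 * (s + t * V) * e3 (dA q) (A + 2 * t * s + t ^ 2 * V) B (H + t * u) +
    u * e3 (dH q) (A + 2 * t * s + t ^ 2 * V) B (H + t * u) -
      (s + t * V) * e3 q (A + 2 * t * s + t ^ 2 * V) B (H + t * u)) *
        Real.exp (-(A + 2 * t * s + t ^ 2 * V) / 2), ?_, ?_⟩
  · intro t
    have h := (chain q B (h4 t) (h5 t)).fun_mul (h7 t)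
    refine h.congr_deriv ?_
    ring
  · have k1 := (((h6 0).const_mul 2).fun_mul (chain (dA q) B (h4 0) (h5 0)))
    have k2 := (chain (dH q) B (h4 0) (h5 0)).const_mul u
    have k3 := (h6 0).fun_mul (chain q B (h4 0) (h5 0))
    have k := ((k1.fun_add k2).fun_sub k3).fun_mul (h7 0)
    refine k.congr_deriv ?_
    have z1 : A + 2 * 0 * s + 0 ^ 2 * V = A := by ring
    have z2 : H + 0 * u = H := by ring
    have z3 : s + 0 * V = s := by ring
    rw [z1, z2, z3, dd_comm]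
    ring

end Pool.Agent.LPK.H4
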